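import Pool.Agent.H69.LQ.Lib
import Pool.Agent.H69.LNN.Targets

/-!
# VP: the form with a positive potential (helper68, board lnn_modules)
-/

set_option autoImplicit false

open MeasureTheory Metric Set
open scoped ENNReal
open Pool.Agent.H85.LK (E adm lam Ann)
open Pool.Agent.H69.LQ Pool.Agent.H69.LNN

namespace Pool.Agent.H68.LNN

variable {N : ℕ}

lemma cont_Gs {w : E N → ℝ} (hw : ContDiff ℝ (⊤ : ℕ∞) w) : Continuous (fun x => Gs w x) := by
  have h1 : ∀ v : E N, Continuous (fun x => fderiv ℝ w x v) := fun v =>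
    (hw.continuous_fderiv (by simp)).clm_apply continuous_const
  have h2 : ∀ i : Fin N, Continuous (fun x : E N => x i) := fun i => by fun_prop
  unfold Gs LL
  refine continuous_const.mul (continuous_finsetSum _ fun i _ =>
    continuous_finsetSum _ fun j _ => ?_)
  exact (((h2 i).mul (h1 _)).sub ((h2 j).mul (h1 _))).pow 2

lemma BM_Gs {w : E N → ℝ} (hw : ContDiff ℝ (⊤ : ℕ∞) w) :
    BM (fun θ : Sp N => Gs w (θ : E N)) :=
  BM_cont ((cont_Gs hw).comp continuous_subtype_val)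

lemma Gs_nonneg (w : E N → ℝ) (x : E N) : 0 ≤ Gs w x := by
  unfold Gs
  positivity

lemma BM_rs {w : E N → ℝ} (hw : ContDiff ℝ (⊤ : ℕ∞) w) : BM (rs w 1) := by
  refine BM_cont ?_
  unfold rs
  exact hw.continuous.comp (continuous_subtype_val.const_smul (1 : ℝ))

lemma trunc_abs (t t' : ℝ → ℝ) (h0 : t 0 = 0) (hd : ∀ x, HasDerivAt t (t' x) x)
    (ht : ∀ x, 0 ≤ t' x ∧ t' x ≤ 1) (x : ℝ) : |x - t x| ≤ |x| := by
  have hm1 : Monotone t := monotone_of_deriv_nonneg (fun x => (hd x).differentiableAt)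
    (fun x => by rw [(hd x).deriv]; exact (ht x).1)
  have hd2 : ∀ x, HasDerivAt (fun x => x - t x) (1 - t' x) x := fun x =>
    (hasDerivAt_id x).sub (hd x)
  have hm2 : Monotone (fun x => x - t x) :=
    monotone_of_deriv_nonneg (fun x => (hd2 x).differentiableAt)
    (fun x => by rw [(hd2 x).deriv]; linarith [(ht x).2])
  rcases le_total 0 x with h | h
  · have h1 := hm1 h
    have h2 := hm2 h
    simp only [h0, sub_zero] at h1 h2
    rw [abs_of_nonneg h2, abs_of_nonneg h]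
    linarith
  · have h1 := hm1 h
    have h2 := hm2 h
    simp only [h0, sub_zero] at h1 h2
    rw [abs_of_nonpos h2, abs_of_nonpos h]
    linarith

lemma Gs_trunc {w : E N → ℝ} (hw : ContDiff ℝ (⊤ : ℕ∞) w) (t t' : ℝ → ℝ)
    (hd : ∀ x, HasDerivAt t (t' x) x) (ht : ∀ x, 0 ≤ t' x ∧ t' x ≤ 1) (x : E N) :
    Gs (fun x => t (w x)) x + Gs (fun x => w x - t (w x)) x ≤ Gs w x := by
  have hwd : HasFDerivAt w (fderiv ℝ w x) x :=
    (hw.differentiable (by simp)).differentiableAt.hasFDerivAt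
  have h1 : HasFDerivAt (fun x => t (w x)) (t' (w x) • fderiv ℝ w x) x :=
    (hd (w x)).comp_hasFDerivAt x hwd
  have h2 : HasFDerivAt (fun x => w x - t (w x))
      (fderiv ℝ w x - t' (w x) • fderiv ℝ w x) x := hwd.sub h1
  have hL1 : ∀ i j : Fin N, LL i j (fun x => t (w x)) x = t' (w x) * LL i j w x := by
    intro i j
    unfold LL
    rw [h1.fderiv]
    simp only [smul_apply, smul_eq_mul]
    ring
  have hL2 : ∀ i j : Fin N, LL i j (fun x => w x - t (w x)) x =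
      (1 - t' (w x)) * LL i j w x := by
    intro i j
    unfold LL
    rw [h2.fderiv]
    simp only [sub_apply, smul_apply, smul_eq_mul]
    ring
  have hG1 : Gs (fun x => t (w x)) x = t' (w x) ^ 2 * Gs w x := by
    unfold Gs
    simp only [hL1, mul_pow, ← Finset.mul_sum]
    ring
  have hG2 : Gs (fun x => w x - t (w x)) x = (1 - t' (w x)) ^ 2 * Gs w x := by
    unfold Gs
    simp only [hL2, mul_pow, ← Finset.mul_sum]
    ring
  rw [hG1, hG2]
  have h3 := Gs_nonneg w x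
  have h4 := (ht (w x)).1
  have h5 := (ht (w x)).2
  have h6 : t' (w x) ^ 2 + (1 - t' (w x)) ^ 2 ≤ 1 := by nlinarith
  nlinarith [mul_le_mul_of_nonneg_right h6 h3]

/-- the mean of a constant -/
lemma av_one_mul (hone : av (fun _ : Sp N => (1 : ℝ)) = 1) (c : ℝ) :
    av (fun _ : Sp N => c) = c := by
  have h := av_const_mul c (fun _ : Sp N => (1 : ℝ))
  simp only [mul_one] at h
  rw [h, hone, mul_one]

/-- the bounds of the means of `V` and `V ^ 2` -/
lemma av_V {c κ : ℝ} {V : Sp N → ℝ} (hone : av (fun _ : Sp N => (1 : ℝ)) = 1) (hc : 2 ≤ c)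
    (hV : BM V) (hV0 : ∀ θ, 0 ≤ V θ) (hVe : av (fun θ => Real.exp (c * V θ)) ≤ 1 + κ) :
    av V ≤ κ / 2 ∧ av (fun θ => V θ ^ 2) ≤ κ / 2 := by
  have h1 : av (fun θ => 1 + (2 * V θ + 2 * V θ ^ 2)) ≤ av (fun θ => Real.exp (c * V θ)) := by
    refine av_mono ((BM_const 1).add ((hV.const_mul 2).add ((hV.pow 2).const_mul 2)))
      ((hV.const_mul c).comp Real.continuous_exp) fun θ => ?_
    have h2 := Real.quadratic_le_exp_of_nonneg (x := 2 * V θ) (by linarith [hV0 θ])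
    have h3 : Real.exp (2 * V θ) ≤ Real.exp (c * V θ) :=
      Real.exp_le_exp.2 (mul_le_mul_of_nonneg_right hc (hV0 θ))
    nlinarith
  rw [av_add (BM_const 1) ((hV.const_mul 2).add ((hV.pow 2).const_mul 2)),
    av_add (hV.const_mul 2) ((hV.pow 2).const_mul 2), av_const_mul, av_const_mul, hone] at h1
  have h4 : 0 ≤ av V := av_nonneg hV0
  have h5 : 0 ≤ av (fun θ => V θ ^ 2) := av_sq_nonneg V
  constructor <;> linarith

lemma n1_nonneg (F : Sp N → ℝ) : 0 ≤ n1 F := by unfold n1; positivity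

lemma n2_nonneg (F : Sp N → ℝ) : 0 ≤ n2 F := by unfold n2; positivity

lemma n3_nonneg (F : Sp N → ℝ) : 0 ≤ n3 F := av_sq_nonneg _

/-- the case of a positive norm -/
lemma VP_core (hMO : T_MO) (hPY : T_PY) (hQU : T_QU) (hSE : T_SE) (hLSD : T_LSD)
    (hTRU : T_TRU) (s E0 M κ : ℝ) (hs : 0 < s) (hs1 : s ≤ 1) (hE0p : 0 < E0) (hE01 : E0 ≤ 1)
    (hE0l : Real.log (3 * E0) = -(36 / s)) (hM1 : 1 ≤ M) (hMinv : 1 / M ^ 2 ≤ E0)
    (hκp : 0 < κ) (hκ1 : κ ≤ E0) (hκ2 : κ * (2 * M ^ 2 + 8 * M ^ 2 / s) ≤ 3 * s / 4)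
    (ω : E N → ℝ) (V : Sp N → ℝ) (hN : 3 ≤ N) (hω : ContDiff ℝ (⊤ : ℕ∞) ω) (hV : BM V)
    (hV0 : ∀ θ, 0 ≤ V θ)
    (hVe : av (fun θ => Real.exp (2 * N / ((N : ℝ) - 2) * V θ)) ≤ 1 + κ)
    (hm : 0 < av (fun θ => rs ω 1 θ ^ 2)) :
    (1 - s) * (((N : ℝ) - 1) / N * n1 (rs ω 1) + 2 * n2 (rs ω 1) + 3 * n3 (rs ω 1)) -
        s * av (fun θ => rs ω 1 θ ^ 2) ≤
      av (fun θ : Sp N => Gs ω (θ : E N)) / N - av (fun θ => V θ * rs ω 1 θ ^ 2) := by
  have hN2 : 2 ≤ N := by omega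
  have hNR : (3 : ℝ) ≤ N := by exact_mod_cast hN
  have hNp : (0 : ℝ) < N := by linarith
  have hN2p : (0 : ℝ) < (N : ℝ) - 2 := by linarith
  obtain ⟨hone, -⟩ := hMO N hN2
  have hc : (2 : ℝ) ≤ 2 * N / ((N : ℝ) - 2) := by
    rw [le_div_iff₀ hN2p]
    linarith
  obtain ⟨hav1, hav2⟩ := av_V hone hc hV hV0 hVe
  have hF := BM_rs hω
  set m : ℝ := av (fun θ => rs ω 1 θ ^ 2) with hmdef
  have hk0 : 0 < √m := Real.sqrt_pos.2 hm
  have hk2 : √m ^ 2 = m := Real.sq_sqrt hm.le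
  have hMp : 0 < M := by linarith
  obtain ⟨t, t', htc, htd, ht01, htid, htb⟩ := hTRU (M * √m) (by positivity)
  have ht0 : t 0 = 0 := htid 0 (by rw [abs_zero]; positivity)
  have hw1 : ContDiff ℝ (⊤ : ℕ∞) (fun x => t (ω x)) := htc.comp hω
  have hw2 : ContDiff ℝ (⊤ : ℕ∞) (fun x => ω x - t (ω x)) := hω.sub hw1
  have hG1 := BM_rs hw1
  have hG2 := BM_rs hw2
  set G1 : Sp N → ℝ := rs (fun x => t (ω x)) 1 with hG1def
  set G2 : Sp N → ℝ := rs (fun x => ω x - t (ω x)) 1 with hG2def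
  have hsum : ∀ θ, G1 θ + G2 θ = rs ω 1 θ := by
    intro θ
    show t (ω _) + (ω _ - t (ω _)) = ω _
    ring
  have hb1 : ∀ θ, |G1 θ| ≤ 2 * (M * √m) := fun θ => htb _
  have hb2 : ∀ θ, |G2 θ| ≤ |rs ω 1 θ| := fun θ => trunc_abs t t' ht0 htd ht01 _
  have hz2 : ∀ θ, |rs ω 1 θ| ≤ M * √m → G2 θ = 0 := by
    intro θ hθ
    show rs ω 1 θ - t (rs ω 1 θ) = 0
    rw [htid _ hθ, sub_self]
  -- the means
  set a : ℝ := av (fun θ => G2 θ ^ 2) with hadef
  have ham : a ≤ m := av_mono (hG2.pow 2) (hF.pow 2) fun θ => by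
    have := hb2 θ
    exact sq_le_sq.2 this
  have ha0 : 0 ≤ a := av_sq_nonneg _
  set v2 : ℝ := av (fun θ => V θ * G2 θ ^ 2) with hv2def
  set g1 : ℝ := av (fun θ : Sp N => Gs (fun x => t (ω x)) (θ : E N)) with hg1def
  set g2 : ℝ := av (fun θ : Sp N => Gs (fun x => ω x - t (ω x)) (θ : E N)) with hg2def
  have hg : g1 + g2 ≤ av (fun θ : Sp N => Gs ω (θ : E N)) := by
    rw [hg1def, hg2def, ← av_add (BM_Gs hw1) (BM_Gs hw2)]
    exact av_mono ((BM_Gs hw1).add (BM_Gs hw2)) (BM_Gs hω) fun θ =>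
      Gs_trunc hω t t' htd ht01 _
  -- the potential
  have hpot : av (fun θ => V θ * rs ω 1 θ ^ 2) ≤
      4 * M ^ 2 * m * (κ / 2) + 16 * M ^ 2 / s * m * (κ / 2) + s / 4 * a + v2 := by
    have h1 : av (fun θ => V θ * rs ω 1 θ ^ 2) ≤ av (fun θ => (4 * M ^ 2 * m * V θ +
        16 * M ^ 2 / s * m * V θ ^ 2) + (s / 4 * G2 θ ^ 2 + V θ * G2 θ ^ 2)) := by
      refine av_mono (hV.mul (hF.pow 2)) (((hV.const_mul _).add ((hV.pow 2).const_mul _)).add
        (((hG2.pow 2).const_mul _).add (hV.mul (hG2.pow 2)))) fun θ => ?_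
      rw [← hsum θ]
      have hv := hV0 θ
      have h2 : G1 θ ^ 2 ≤ 4 * M ^ 2 * m := by
        have h3 := sq_le_sq' (by linarith [neg_abs_le (G1 θ), hb1 θ])
          ((le_abs_self (G1 θ)).trans (hb1 θ))
        have h4 : (2 * (M * √m)) ^ 2 = 4 * M ^ 2 * m := by
          rw [mul_pow, mul_pow, hk2]; ring
        rwa [h4] at h3
      have h5 : 2 * (G1 θ * G2 θ) * V θ ≤
          16 * M ^ 2 / s * m * V θ ^ 2 + s / 4 * G2 θ ^ 2 := by
        have h6 : G1 θ * G2 θ ≤ 2 * (M * √m) * |G2 θ| := by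
          calc G1 θ * G2 θ ≤ |G1 θ * G2 θ| := le_abs_self _
            _ = |G1 θ| * |G2 θ| := abs_mul _ _
            _ ≤ 2 * (M * √m) * |G2 θ| := mul_le_mul_of_nonneg_right (hb1 θ) (abs_nonneg _)
        have h7 : 2 * (G1 θ * G2 θ) * V θ ≤ 2 * (2 * (M * √m) * |G2 θ|) * V θ :=
          mul_le_mul_of_nonneg_right (by linarith) hv
        have h8 : 0 ≤ 1 / s * (4 * M * √m * V θ - s / 2 * |G2 θ|) ^ 2 := by positivity
        have h9 : 1 / s * (4 * M * √m * V θ - s / 2 * |G2 θ|) ^ 2 =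
            16 * M ^ 2 / s * (√m ^ 2) * V θ ^ 2 - 4 * (M * √m * V θ * |G2 θ|) +
              s / 4 * |G2 θ| ^ 2 := by
          field_simp
          ring
        rw [hk2, sq_abs] at h9
        linarith
      have h10 : V θ * G1 θ ^ 2 ≤ 4 * M ^ 2 * m * V θ := by
        have := mul_le_mul_of_nonneg_left h2 hv
        linarith
      nlinarith
    rw [av_add ((hV.const_mul _).add ((hV.pow 2).const_mul _))
        (((hG2.pow 2).const_mul _).add (hV.mul (hG2.pow 2))),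
      av_add (hV.const_mul _) ((hV.pow 2).const_mul _),
      av_add ((hG2.pow 2).const_mul _) (hV.mul (hG2.pow 2)), av_const_mul, av_const_mul,
      av_const_mul] at h1
    have h11 : 4 * M ^ 2 * m * av (fun θ => V θ) ≤ 4 * M ^ 2 * m * (κ / 2) :=
      mul_le_mul_of_nonneg_left hav1 (by positivity)
    have h12 : 16 * M ^ 2 / s * m * av (fun θ => V θ ^ 2) ≤ 16 * M ^ 2 / s * m * (κ / 2) :=
      mul_le_mul_of_nonneg_left hav2 (by positivity)
    linarith
  -- the logarithmic Sobolev inequality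
  have hls : v2 ≤ g2 / N - 6 / s * a := by
    set ia : Sp N → ℝ := fun θ => if M * √m < |rs ω 1 θ| then 1 else 0 with hia
    have hBia : BM ia := by
      refine ⟨Measurable.ite (measurableSet_lt measurable_const hF.1.norm) measurable_const
        measurable_const, 1, fun θ => ?_⟩
      simp only [hia]
      split_ifs <;> simp
    have hcheb : av ia ≤ 1 / M ^ 2 := by
      have h1 : av (fun θ => M ^ 2 * m * ia θ) ≤ m := by
        refine av_mono (hBia.const_mul _) (hF.pow 2) fun θ => ?_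
        simp only [hia]
        split_ifs with h
        · have h2 : (M * √m) ^ 2 ≤ |rs ω 1 θ| ^ 2 :=
            pow_le_pow_left₀ (by positivity) h.le 2
          rw [mul_pow, hk2, sq_abs] at h2
          linarith
        · rw [mul_zero]
          positivity
      rw [av_const_mul] at h1
      rw [le_div_iff₀ (by positivity)]
      have h3 : (av ia * M ^ 2) * m ≤ 1 * m := by
        calc (av ia * M ^ 2) * m = M ^ 2 * m * av (fun θ => ia θ) := by ring
          _ ≤ 1 * m := by linarith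
      exact le_of_mul_le_mul_right h3 hm
    set Φ : Sp N → ℝ := fun θ => ia θ * (2 * N / ((N : ℝ) - 2) * V θ) +
      (1 - ia θ) * Real.log E0 with hΦdef
    have hlE : Real.log E0 ≤ 0 := Real.log_nonpos hE0p.le hE01
    have hBΦ : BM Φ := (hBia.mul (hV.const_mul _)).add
      (((BM_const 1).sub hBia).mul (BM_const _))
    have hcV : ∀ θ, 0 ≤ 2 * N / ((N : ℝ) - 2) * V θ := fun θ =>
      mul_nonneg (by linarith) (hV0 θ)
    have hΦlo : ∀ θ, E0 ≤ Real.exp (Φ θ) := by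
      intro θ
      have h0 : Real.log E0 ≤ Φ θ → E0 ≤ Real.exp (Φ θ) := fun h => by
        have := Real.exp_le_exp.2 h
        rwa [Real.exp_log hE0p] at this
      refine h0 ?_
      simp only [hΦdef, hia]
      split_ifs
      · linarith [hcV θ]
      · linarith
    have hΦhi : ∀ θ, Real.exp (Φ θ) ≤ ia θ +
        (Real.exp (2 * N / ((N : ℝ) - 2) * V θ) + (E0 - 1)) := by
      intro θ
      have h1 := Real.one_le_exp (hcV θ)
      simp only [hΦdef, hia]
      split_ifs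
      · rw [one_mul, sub_self, zero_mul, add_zero]
        linarith
      · rw [zero_mul, sub_zero, one_mul, zero_add, Real.exp_log hE0p]
        linarith
    have hBe : BM (fun θ => Real.exp (Φ θ)) := hBΦ.comp Real.continuous_exp
    have hBeV : BM (fun θ => Real.exp (2 * N / ((N : ℝ) - 2) * V θ)) :=
      (hV.const_mul _).comp Real.continuous_exp
    have h1 : E0 ≤ av (fun θ => Real.exp (Φ θ)) := by
      have := av_mono (BM_const E0) hBe hΦlo
      rwa [av_one_mul hone] at this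
    have h2 : av (fun θ => Real.exp (Φ θ)) ≤ 3 * E0 := by
      have h3 := av_mono hBe (hBia.add (hBeV.add (BM_const _))) hΦhi
      rw [av_add hBia (hBeV.add (BM_const _)), av_add hBeV (BM_const _),
        av_one_mul hone] at h3
      linarith
    have h4 : Real.log (av (fun θ => Real.exp (Φ θ))) ≤ -(36 / s) := by
      rw [← hE0l]
      exact Real.log_le_log (by linarith) h2
    have h5 := hLSD N (fun x => ω x - t (ω x)) Φ hN hw2 hBΦ
    have h6 : (fun θ => Φ θ * rs (fun x => ω x - t (ω x)) 1 θ ^ 2) =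
        fun θ => 2 * N / ((N : ℝ) - 2) * (V θ * G2 θ ^ 2) := by
      funext θ
      show Φ θ * G2 θ ^ 2 = _
      by_cases h : M * √m < |rs ω 1 θ|
      · simp only [hΦdef, hia, if_pos h]
        ring
      · rw [hz2 θ (not_lt.1 h)]
        ring
    rw [h6, av_const_mul] at h5
    have h7 : 2 * N / ((N : ℝ) - 2) * v2 ≤ 2 / ((N : ℝ) - 2) * g2 - 36 / s * a := by
      have h8 := mul_le_mul_of_nonneg_right h4 ha0
      calc 2 * N / ((N : ℝ) - 2) * v2 ≤ 2 / ((N : ℝ) - 2) * g2 +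
            Real.log (av fun θ => Real.exp (Φ θ)) * a := h5
        _ ≤ 2 / ((N : ℝ) - 2) * g2 - 36 / s * a := by linarith
    have h9 := mul_le_mul_of_nonneg_left h7
      (by positivity : (0 : ℝ) ≤ ((N : ℝ) - 2) / (2 * N))
    have h10 : ((N : ℝ) - 2) / (2 * N) * (2 * N / ((N : ℝ) - 2) * v2) = v2 := by
      field_simp
    have h11 : ((N : ℝ) - 2) / (2 * N) * (2 / ((N : ℝ) - 2) * g2 - 36 / s * a) =
        g2 / N - ((N : ℝ) - 2) / (2 * N) * (36 / s * a) := by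
      field_simp
    rw [h10, h11] at h9
    have h12 : (1 : ℝ) / 6 ≤ ((N : ℝ) - 2) / (2 * N) := by
      rw [div_le_div_iff₀ (by norm_num) (by positivity)]
      linarith
    have h13 : 1 / 6 * (36 / s * a) ≤ ((N : ℝ) - 2) / (2 * N) * (36 / s * a) :=
      mul_le_mul_of_nonneg_right h12 (by positivity)
    have h14 : 1 / 6 * (36 / s * a) = 6 / s * a := by ring
    linarith
  -- the angular energy of the truncation
  have hse := hSE N (fun x => t (ω x)) hN2 hw1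
  have hqu := hQU N (rs ω 1) (fun θ => -G2 θ) s hN2 hF hG2.neg hs
  have hG1eq : (fun θ => rs ω 1 θ + -G2 θ) = G1 := by
    funext θ
    rw [← hsum θ]
    ring
  rw [hG1eq] at hqu
  obtain ⟨-, hq1, hq2, hq3⟩ := hqu
  have hpy := (hPY N (fun θ => -G2 θ) hN2 hG2.neg).1
  have hneg : av (fun θ => (-G2 θ) ^ 2) = a := by
    rw [hadef]
    congr 1
    funext θ
    ring
  rw [hneg] at hpy
  have hn0 : 0 ≤ n0 (fun θ => -G2 θ) := by unfold n0; positivity
  set b1 : ℝ := n1 (fun θ => -G2 θ)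
  set b2 : ℝ := n2 (fun θ => -G2 θ)
  set b3 : ℝ := n3 (fun θ => -G2 θ)
  have hb1p : 0 ≤ b1 := n1_nonneg _
  have hb2p : 0 ≤ b2 := n2_nonneg _
  have hb3p : 0 ≤ b3 := n3_nonneg _
  have hq1' := (abs_le.1 hq1).1
  have hq2' := (abs_le.1 hq2).1
  have hq3' := (abs_le.1 hq3).1
  have hse2 : ((N : ℝ) - 1) / N * n1 G1 + 2 * n2 G1 + 3 * n3 G1 ≤ g1 / N := by
    rw [le_div_iff₀ hNp]
    have h1 : (((N : ℝ) - 1) / N * n1 G1 + 2 * n2 G1 + 3 * n3 G1) * N =
        ((N : ℝ) - 1) * n1 G1 + 2 * N * n2 G1 + 3 * N * n3 G1 := by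
      field_simp
    rw [h1]
    have h2 := n3_nonneg G1
    have h3 : ((N : ℝ) - 1) * n1 G1 + 2 * N * n2 G1 + 3 * ((N : ℝ) + 1) * n3 G1 ≤ g1 := hse
    nlinarith
  have hr0 : (0 : ℝ) ≤ ((N : ℝ) - 1) / N := div_nonneg (by linarith) hNp.le
  have hr1 : ((N : ℝ) - 1) / N ≤ 1 := by
    rw [div_le_one hNp]
    linarith
  set r : ℝ := ((N : ℝ) - 1) / N
  have hD : (1 - s) * (r * n1 (rs ω 1) + 2 * n2 (rs ω 1) + 3 * n3 (rs ω 1)) -
      (1 + 1 / s) * (r * b1 + 2 * b2 + 3 * b3) ≤ r * n1 G1 + 2 * n2 G1 + 3 * n3 G1 := by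
    have h1 : r * ((1 - s) * n1 (rs ω 1) - (1 + 1 / s) * b1) ≤ r * n1 G1 :=
      mul_le_mul_of_nonneg_left (by linarith) hr0
    linarith
  have hb : (1 + 1 / s) * (r * b1 + 2 * b2 + 3 * b3) ≤ 6 / s * a := by
    have h1 : r * b1 + 2 * b2 + 3 * b3 ≤ 3 * a := by
      have : r * b1 ≤ 1 * b1 := mul_le_mul_of_nonneg_right hr1 hb1p
      linarith
    have h2 : 1 + 1 / s ≤ 2 / s := by
      rw [le_div_iff₀ hs, add_mul, one_div, inv_mul_cancel₀ hs.ne']
      linarith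
    calc (1 + 1 / s) * (r * b1 + 2 * b2 + 3 * b3) ≤ (2 / s) * (3 * a) :=
          mul_le_mul h2 h1 (by positivity) (by positivity)
      _ = 6 / s * a := by ring
  have hκm : 4 * M ^ 2 * m * (κ / 2) + 16 * M ^ 2 / s * m * (κ / 2) ≤ 3 * s / 4 * m := by
    calc 4 * M ^ 2 * m * (κ / 2) + 16 * M ^ 2 / s * m * (κ / 2)
        = κ * (2 * M ^ 2 + 8 * M ^ 2 / s) * m := by ring
      _ ≤ 3 * s / 4 * m := mul_le_mul_of_nonneg_right hκ2 hm.le
  have hsa : s / 4 * a ≤ s / 4 * m := mul_le_mul_of_nonneg_left ham (by positivity)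
  have hgN : g1 / N + g2 / N ≤ av (fun θ : Sp N => Gs ω (θ : E N)) / N := by
    rw [← add_div]
    exact div_le_div_of_nonneg_right hg hNp.le
  linarith

theorem pf_VP (hMO : T_MO) (hPY : T_PY) (hQU : T_QU) (hSE : T_SE) (hLSD : T_LSD)
    (hTRU : T_TRU) : T_VP := by
  intro s hs hs1
  have hE0p : 0 < Real.exp (-(36 / s)) / 3 := by positivity
  have hE01 : Real.exp (-(36 / s)) / 3 ≤ 1 := by
    have h1 : Real.exp (-(36 / s)) ≤ 1 := by
      rw [Real.exp_le_one_iff]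
      have : 0 < 36 / s := by positivity
      linarith
    linarith
  have hE0l : Real.log (3 * (Real.exp (-(36 / s)) / 3)) = -(36 / s) := by
    rw [mul_div_cancel₀ _ (by norm_num : (3 : ℝ) ≠ 0), Real.log_exp]
  set E0 : ℝ := Real.exp (-(36 / s)) / 3 with hE0
  have hM1 : 1 ≤ 1 / E0 := by
    rw [le_div_iff₀ hE0p]
    linarith
  have hMinv : 1 / (1 / E0) ^ 2 ≤ E0 := by
    have h1 : 1 / (1 / E0) ^ 2 = E0 ^ 2 := by
      field_simp
    rw [h1]
    nlinarith
  set M : ℝ := 1 / E0 with hM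
  have hMp : 0 < M := by linarith
  have hpos : 0 < 2 * M ^ 2 + 8 * M ^ 2 / s := by positivity
  refine ⟨min E0 ((3 * s / 4) / (2 * M ^ 2 + 8 * M ^ 2 / s)), 3, lt_min hE0p (by positivity),
    le_rfl, ?_⟩
  set κ : ℝ := min E0 ((3 * s / 4) / (2 * M ^ 2 + 8 * M ^ 2 / s)) with hκ
  have hκp : 0 < κ := lt_min hE0p (by positivity)
  have hκ1 : κ ≤ E0 := min_le_left _ _
  have hκ2 : κ * (2 * M ^ 2 + 8 * M ^ 2 / s) ≤ 3 * s / 4 := by
    rw [← le_div_iff₀ hpos]
    exact min_le_right _ _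
  intro N ω V hN hω hV hV0 hVe
  have hm0 : 0 ≤ av (fun θ => rs ω 1 θ ^ 2) := av_sq_nonneg _
  rcases eq_or_lt_of_le hm0 with hm | hm
  · have hpy := (hPY N (rs ω 1) (by omega) (BM_rs hω)).1
    have hn0 : 0 ≤ n0 (rs ω 1) := by unfold n0; positivity
    have h1 := n1_nonneg (rs ω 1)
    have h2 := n2_nonneg (rs ω 1)
    have h3 := n3_nonneg (rs ω 1)
    rw [← hm] at hpy
    have e1 : n1 (rs ω 1) = 0 := by linarith
    have e2 : n2 (rs ω 1) = 0 := by linarith
    have e3 : n3 (rs ω 1) = 0 := by linarith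
    rw [e1, e2, e3, ← hm]
    obtain ⟨hVm, B, hB⟩ := id hV
    have h4 : av (fun θ => V θ * rs ω 1 θ ^ 2) ≤ 0 := by
      have h5 : av (fun θ => V θ * rs ω 1 θ ^ 2) ≤ av (fun θ => B * rs ω 1 θ ^ 2) :=
        av_mono (hV.mul ((BM_rs hω).pow 2)) (((BM_rs hω).pow 2).const_mul _) fun θ =>
          mul_le_mul_of_nonneg_right ((le_abs_self _).trans (hB θ)) (sq_nonneg _)
      rw [av_const_mul, ← hm, mul_zero] at h5
      exact h5
    have h6 : 0 ≤ av (fun θ : Sp N => Gs ω (θ : E N)) / N :=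
      div_nonneg (av_nonneg fun θ => Gs_nonneg _ _) (Nat.cast_nonneg _)
    linarith
  · exact VP_core hMO hPY hQU hSE hLSD hTRU s E0 M κ hs hs1 hE0p hE01 hE0l hM1 hMinv hκp hκ1 hκ2
      ω V hN hω hV hV0 hVe hm

end Pool.Agent.H68.LNN
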